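import Pool.Agent.P.MP_12de15_lc.UMain

/-! An allocation that is EF1, Pareto optimal and fractionally Pareto optimal can be computed in
polynomial time if and only if mean-payoff games can be solved in polynomial time. -/

namespace Pool.Agent.Results.MP_12de15_lc.MeanPayoffEquiv

open Pool.Agent.P.MP_12de15_lc N68a2faeb

theorem result :
    (∃ F : Inst → List ℕ, IsPolyTime F ∧
      ∀ I, ValidInst I → IsAlloc I (F I) ∧ EF1 I (F I) ∧ PO I (F I) ∧ FPO I (F I)) ↔
    (∃ f : Game → Bool, IsPolyTime f ∧ ∀ G, ValidGame G → (f G = true ↔ MaxWins G)) :=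
  ⟨fun ⟨_, h1, h2⟩ => games_of_fair h1 h2, fun ⟨_, h1, h2⟩ => fair_of_games h1 h2⟩

end Pool.Agent.Results.MP_12de15_lc.MeanPayoffEquiv
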